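import Pool.Agent.V11245.KDefs

/-!
# Splitting `ω₂`-Kurepa trees do not give retracts
-/

set_option autoImplicit false

namespace Pool.Agent.Results.MP_bf47cd_lc.NotAllRetracts

open Cardinal Set Pool.Agent.V11245.OmegaPerf Pool.Agent.V11245.KTree

universe u

/-- (1) If `T` is an `ω₂`-Kurepa tree such that `[T]` has no isolated points, then `[T]` is not a
retract of `^{ω₂}ω₂`.  (2) If there is an `ω₂`-Kurepa tree at all, then there is an everywhere large
one, and its branch set is not a retract of `^{ω₂}ω₂`. -/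
theorem result :
    (∀ T : Set (Node (ℵ_ 2 : Cardinal.{u})), IsKurepa T →
      (∀ x ∈ body T, ∀ α, ∃ y ∈ body T, y ≠ x ∧ tr α y = tr α x) → ¬ IsRetract (body T)) ∧
    ((∃ T : Set (Node (ℵ_ 2 : Cardinal.{u})), IsKurepa T) →
      ∃ T : Set (Node (ℵ_ 2 : Cardinal.{u})),
        IsKurepa T ∧ EverywhereLarge T ∧ ¬ IsRetract (body T)) := by
  refine ⟨fun T hT hs => not_retract_of_splitting hT hs, fun h => ?_⟩
  obtain ⟨T, hT, hl⟩ := exists_large h
  exact ⟨T, hT, hl, not_retract_of_splitting hT (splitting_of_large hl)⟩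

end Pool.Agent.Results.MP_bf47cd_lc.NotAllRetracts
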